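import Pool.Agent.helper27.TA.Main
import Pool.Agent.helper27.TA.Exists

/-!
# Local left multipliers on tensor algebras of C*-correspondences

Every C*-correspondence `E` over a C*-algebra has a universal Toeplitz representation, and every
bounded linear map on its tensor algebra which is a local left multiplier, or only an
approximately local left multiplier, is a left multiplier.
-/

set_option autoImplicit false

namespace Pool.Agent.Results.MP_4840d7_an.LocalMultipliers

open Pool.Agent.helper27.TA

universe u

theorem result (A X : Type u) [NonUnitalCStarAlgebra A] [NormedAddCommGroup X] [NormedSpace ℂ X]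
    [CompleteSpace X] (E : Correspondence A X) :
    (∃ (B : Type u) (_ : NonUnitalCStarAlgebra B) (ρ : ToeplitzRep E B), ρ.IsUniversal) ∧
    ∀ (B : Type u) [NonUnitalCStarAlgebra B] (ρ : ToeplitzRep E B), ρ.IsUniversal →
      ∀ S : ρ.tensorAlgebra →L[ℂ] ρ.tensorAlgebra,
        IsLocalLeftMultiplier S ∨ IsApproxLocalLeftMultiplier S → IsLeftMultiplier S := by
  refine ⟨exists_universal E, ?_⟩
  intro B _ ρ hρ S hS
  rcases hS with hS | hS
  · exact ToeplitzRep.isLeftMultiplier_of_local hρ hS
  · exact ToeplitzRep.isLeftMultiplier_of_approxLocal hρ hS

end Pool.Agent.Results.MP_4840d7_an.LocalMultipliers
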